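import Mathlib
import Pool.Agent.Q299.MUlt

set_option autoImplicit false

namespace Pool.Agent.Results.MP_26c4ab_lc.NoGreatestLowerBound

open Filter Pool.Agent.Q299.MUlt

/-- `p` is an odd prime of the `j`-th class -/
def cls (j p : ℕ) : Prop := p ≠ 2 ∧ (Nat.unpair (Nat.count Nat.Prime p - 1)).1 = j

noncomputable instance (j : ℕ) : DecidablePred (cls j) := fun _ => Classical.dec _

/-- the number of prime factors in the `j`-th class -/
noncomputable def e (j : ℕ) (x : ℕ+) : ℕ := (x : ℕ).primeFactorsList.countP (fun p => cls j p)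

/-- the number of factors two -/
def t (x : ℕ+) : ℕ := (x : ℕ).primeFactorsList.count 2

theorem e_mul (j : ℕ) (x y : ℕ+) : e j (x * y) = e j x + e j y := by
  unfold e
  rw [PNat.mul_coe, (Nat.perm_primeFactorsList_mul x.ne_zero y.ne_zero).countP_eq,
    List.countP_append]

theorem t_mul (x y : ℕ+) : t (x * y) = t x + t y := by
  unfold t
  rw [PNat.mul_coe, (Nat.perm_primeFactorsList_mul x.ne_zero y.ne_zero).count_eq,
    List.count_append]

theorem e_two (j : ℕ) : e j 2 = 0 := by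
  unfold e
  rw [show ((2 : ℕ+) : ℕ) = 2 from rfl, Nat.primeFactorsList_prime Nat.prime_two]
  simp [cls]

theorem e_one (j : ℕ) : e j 1 = 0 := by
  unfold e
  simp

theorem t_one : t 1 = 0 := by
  unfold t
  simp

theorem t_two : t 2 = 1 := by
  unfold t
  rw [show ((2 : ℕ+) : ℕ) = 2 from rfl, Nat.primeFactorsList_prime Nat.prime_two]
  simp

theorem Om_two : Om 2 = 1 := (Om_eq_one 2).2 Nat.prime_two

theorem Om_one : Om 1 = 0 := (Om_eq_zero 1).2 rfl

theorem pr_succ_ne_two (i : ℕ) : (pr (i + 1) : ℕ) ≠ 2 := by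
  have h : (pr 0 : ℕ) < pr (i + 1) := pr_lt (Nat.succ_pos i)
  have h0 : (pr 0 : ℕ) = 2 := Nat.nth_prime_zero_eq_two
  omega

theorem e_pr (j i : ℕ) : e j (pr (i + 1)) = if (Nat.unpair i).1 = j then 1 else 0 := by
  unfold e
  rw [Nat.primeFactorsList_prime (pr_prime _)]
  have h1 : Nat.count Nat.Prime (pr (i + 1)) = i + 1 := by
    change Nat.count Nat.Prime (Nat.nth Nat.Prime (i + 1)) = i + 1
    exact Nat.count_nth_of_infinite Nat.infinite_setOfPred_prime _
  have h2 : cls j (pr (i + 1)) ↔ (Nat.unpair i).1 = j := by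
    unfold cls
    rw [h1, Nat.add_sub_cancel]
    exact and_iff_right (pr_succ_ne_two i)
  by_cases h3 : (Nat.unpair i).1 = j
  · rw [if_pos h3]
    simp [h2, h3]
  · rw [if_neg h3]
    simp [h2, h3]

theorem t_pr (i : ℕ) : t (pr (i + 1)) = 0 := by
  unfold t
  rw [Nat.primeFactorsList_prime (pr_prime _)]
  have := pr_succ_ne_two i
  simp [this]

theorem pow_of_e {x : ℕ+} (h : ∀ j, e j x = 0) : ∃ s : ℕ, x = 2 ^ s := by
  have h1 : ∀ {d : ℕ}, d.Prime → d ∣ (x : ℕ) → d = 2 := by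
    intro d hd hdx
    by_contra h2
    have h3 := h (Nat.unpair (Nat.count Nat.Prime d - 1)).1
    unfold e at h3
    rw [List.countP_eq_zero] at h3
    have h4 := h3 d ((Nat.mem_primeFactorsList x.ne_zero).2 ⟨hd, hdx⟩)
    apply h4
    simp only [decide_eq_true_eq]
    exact ⟨h2, rfl⟩
  have h2 := Nat.eq_prime_pow_of_unique_prime_dvd x.ne_zero h1
  refine ⟨(x : ℕ).primeFactorsList.length, ?_⟩
  apply PNat.eq
  rw [PNat.pow_coe]
  exact h2

theorem Om_pow (s : ℕ) : Om (2 ^ s) = s := by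
  induction s with
  | zero => rw [pow_zero, Om_one]
  | succ s ih => rw [pow_succ, Om_mul, ih, Om_two]

theorem t_pow (s : ℕ) : t (2 ^ s) = s := by
  induction s with
  | zero => rw [pow_zero, t_one]
  | succ s ih => rw [pow_succ, t_mul, ih, t_two]

/-- a nonprincipal ultrafilter on the doubles of the odd primes of the `n`-th class -/
noncomputable def U (n : ℕ) : Ultrafilter ℕ+ := H.map (fun l => 2 * pr (Nat.pair n l + 1))

/-- the products `U (n + k - 1) ... U n` -/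
noncomputable def W : ℕ → ℕ → Ultrafilter ℕ+
  | 0, _ => pure 1
  | k + 1, n => mul (W k (n + 1)) (U n)

/-- the chain -/
noncomputable def V (n : ℕ) : Ultrafilter ℕ+ := H.bind (fun m => W (m - n) n)

theorem mem_V {n : ℕ} {A : Set ℕ+} : A ∈ V n ↔ ∀ᶠ m in (H : Filter ℕ), A ∈ W (m - n) n := Iff.rfl

theorem V_succ (n : ℕ) : V n = mul (V (n + 1)) (U n) := by
  apply Ultrafilter.coe_injective
  ext A
  rw [Ultrafilter.mem_coe, Ultrafilter.mem_coe, mem_V, mem_mul, mem_V]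
  refine Filter.eventually_congr ?_
  filter_upwards [H_gt n] with m hm
  have h1 : m - n = (m - (n + 1)) + 1 := by omega
  rw [h1]
  rfl

/-- what the elements of `W k n` look like -/
def BB (k n : ℕ) : Set ℕ+ :=
  {x | (∀ j, e j x = if n ≤ j ∧ j < n + k then 1 else 0) ∧ Om x = 2 * t x ∧ t x = k}

theorem BB_mem (k : ℕ) : ∀ n, BB k n ∈ W k n := by
  induction k with
  | zero =>
    intro n
    change (1 : ℕ+) ∈ BB 0 n
    refine ⟨fun j => ?_, ?_, t_one⟩
    · rw [e_one, if_neg]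
      omega
    · rw [Om_one, t_one]
  | succ k ih =>
    intro n
    change BB (k + 1) n ∈ mul (W k (n + 1)) (U n)
    rw [mem_mul]
    filter_upwards [ih (n + 1)] with x hx
    obtain ⟨hx1, hx2, hx3⟩ := hx
    change ∀ᶠ l in (H : Filter ℕ), x * (2 * pr (Nat.pair n l + 1)) ∈ BB (k + 1) n
    refine Filter.Eventually.of_forall fun l => ⟨fun j => ?_, ?_, ?_⟩
    · rw [e_mul, e_mul, e_two, e_pr, hx1, Nat.unpair_pair]
      change (if n + 1 ≤ j ∧ j < n + 1 + k then 1 else 0) + (0 + if n = j then 1 else 0) = _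
      split_ifs <;> omega
    · rw [Om_mul, Om_mul, Om_two, (Om_eq_one _).2 (pr_prime _), t_mul, t_mul, t_two, t_pr]
      omega
    · rw [t_mul, t_mul, t_two, t_pr]
      omega

/-- the set used for `V 0` -/
def B0 : Set ℕ+ :=
  {x | (∀ j, e j x ≤ 1) ∧ (∀ i j, i ≤ j → 1 ≤ e j x → 1 ≤ e i x) ∧ Om x = 2 * t x}

theorem B0_mem : B0 ∈ V 0 := by
  rw [mem_V]
  refine Filter.Eventually.of_forall fun m => ?_
  refine Filter.mem_of_superset (BB_mem (m - 0) 0) ?_
  rintro x ⟨h1, h2, -⟩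
  refine ⟨fun j => ?_, fun i j hij hj => ?_, h2⟩
  · rw [h1]
    split_ifs <;> omega
  · rw [h1] at hj ⊢
    split_ifs at hj ⊢ <;> omega

/-- the set used for `V n` -/
def DD (n : ℕ) : Set ℕ+ := {x | ∀ j < n, e j x = 0}

theorem DD_mem (n : ℕ) : DD n ∈ V n := by
  rw [mem_V]
  refine Filter.Eventually.of_forall fun m => ?_
  refine Filter.mem_of_superset (BB_mem (m - n) n) ?_
  rintro x ⟨h1, -, -⟩ j hj
  rw [h1, if_neg]
  omega

theorem two_pow_mem (n s : ℕ) : {x : ℕ+ | ∃ y : ℕ+, x = y * 2 ^ s} ∈ V n := by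
  rw [mem_V]
  filter_upwards [H_gt (n + s)] with m hm
  refine Filter.mem_of_superset (BB_mem (m - n) n) ?_
  rintro x ⟨-, -, h3⟩
  have h4 : s ≤ t x := by omega
  have h5 : 2 ^ s ∣ (x : ℕ) := by
    refine (pow_dvd_pow 2 h4).trans ?_
    have h6 : t x = (x : ℕ).factorization 2 := by
      unfold t
      exact Nat.primeFactorsList_count_eq
    rw [h6]
    exact Nat.ordProj_dvd _ _
  obtain ⟨y, hy⟩ := h5
  have hy0 : 0 < y := by
    rcases Nat.eq_zero_or_pos y with h | h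
    · rw [h, mul_zero] at hy
      exact absurd hy x.ne_zero
    · exact h
  refine ⟨⟨y, hy0⟩, ?_⟩
  apply PNat.eq
  rw [PNat.mul_coe, PNat.pow_coe, hy, mul_comm]
  rfl

theorem fe_of_mul (X Y : Ultrafilter ℕ+) : fe X (mul X Y) := by
  intro B hB
  refine ⟨_, hB, fun S hS => ?_⟩
  have h1 : ∀ᶠ m in (Y : Filter ℕ+), ∀ a ∈ S, a * m ∈ B := by
    rw [Filter.eventually_all_finset]
    exact hS
  obtain ⟨m, hm⟩ := h1.exists
  exact ⟨m, fun a ha => by
    rw [mul_comm]
    exact hm a ha⟩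

theorem fe_refl (X : Ultrafilter ℕ+) : fe X X :=
  fun B hB => ⟨B, hB, fun S hS => ⟨1, fun a ha => by rw [one_mul]; exact hS a ha⟩⟩

theorem fe_trans {X Y Z : Ultrafilter ℕ+} (h1 : fe X Y) (h2 : fe Y Z) : fe X Z := by
  classical
  intro B hB
  obtain ⟨A, hA, hAB⟩ := h2 B hB
  obtain ⟨C, hC, hCA⟩ := h1 A hA
  refine ⟨C, hC, fun S hS => ?_⟩
  obtain ⟨k, hk⟩ := hCA S hS
  obtain ⟨l, hl⟩ := hAB (S.image (fun a => k * a)) (by
    intro b hb
    obtain ⟨a, ha, rfl⟩ := Finset.mem_image.1 hb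
    exact hk a ha)
  refine ⟨l * k, fun a ha => ?_⟩
  rw [mul_assoc]
  exact hl _ (Finset.mem_image_of_mem _ ha)

theorem chain (i j : ℕ) (h : i ≤ j) : fe (V j) (V i) := by
  induction j, h using Nat.le_induction with
  | base => exact fe_refl _
  | succ j _ ih =>
    refine fe_trans ?_ ih
    rw [V_succ j]
    exact fe_of_mul _ _

theorem lower_pow (s n : ℕ) : fe (pure (2 ^ s)) (V n) := by
  intro B hB
  obtain ⟨x, hx1, y, rfl⟩ := (V n).nonempty_of_mem (Filter.inter_mem hB (two_pow_mem n s))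
  refine ⟨{2 ^ s}, rfl, fun S hS => ⟨y, fun a ha => ?_⟩⟩
  rw [Set.mem_singleton_iff.1 (hS a ha)]
  exact hx1

theorem lower_eq (G : Ultrafilter ℕ+) (hG : ∀ n, fe G (V n)) : ∃ s : ℕ, G = pure (2 ^ s) := by
  classical
  have hD : ∀ n, DD n ∈ G := by
    intro n
    obtain ⟨A, hA, hfe⟩ := hG n (DD n) (DD_mem n)
    refine Filter.mem_of_superset hA ?_
    intro a ha j hj
    obtain ⟨k, hk⟩ := hfe {a} (by
      intro b hb
      rw [Finset.mem_singleton.1 hb]
      exact ha)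
    have h1 := hk a (Finset.mem_singleton_self a) j hj
    rw [e_mul] at h1
    omega
  obtain ⟨A, hA, hfe⟩ := hG 0 B0 B0_mem
  have hpow : {x : ℕ+ | ∀ j, e j x = 0} ∈ G := by
    by_contra hcon
    rw [← Ultrafilter.compl_mem_iff_notMem] at hcon
    obtain ⟨h1, h1A, h1n⟩ := G.nonempty_of_mem (Filter.inter_mem hA hcon)
    have h1n' : ¬ ∀ j, e j h1 = 0 := h1n
    push Not at h1n'
    obtain ⟨c1, hc1⟩ := h1n'
    obtain ⟨h2, ⟨h2A, h2n⟩, h2D⟩ := G.nonempty_of_mem
      (Filter.inter_mem (Filter.inter_mem hA hcon) (hD (c1 + 1)))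
    have h2n' : ¬ ∀ j, e j h2 = 0 := h2n
    push Not at h2n'
    obtain ⟨c2, hc2⟩ := h2n'
    have hlt : c1 < c2 := by
      by_contra h
      exact hc2 (h2D c2 (by omega))
    obtain ⟨k, hk⟩ := hfe {h1, h2} (by
      intro b hb
      rcases Finset.mem_insert.1 hb with rfl | hb
      · exact h1A
      · rw [Finset.mem_singleton.1 hb]
        exact h2A)
    obtain ⟨h3, -, -⟩ := hk h1 (Finset.mem_insert_self _ _)
    obtain ⟨-, h4, -⟩ := hk h2 (Finset.mem_insert_of_mem (Finset.mem_singleton_self _))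
    have h5 := h3 c1
    have h6 := h4 c1 c2 hlt.le
    rw [e_mul] at h5
    rw [e_mul, e_mul] at h6
    have h7 := h2D c1 (Nat.lt_succ_self c1)
    omega
  obtain ⟨h1, h1A, h1p⟩ := G.nonempty_of_mem (Filter.inter_mem hA hpow)
  obtain ⟨s, rfl⟩ := pow_of_e h1p
  refine ⟨s, ?_⟩
  have hmem : ({2 ^ s} : Set ℕ+) ∈ G := by
    by_contra hcon
    rw [← Ultrafilter.compl_mem_iff_notMem] at hcon
    obtain ⟨h2, ⟨h2A, h2p⟩, h2n⟩ := G.nonempty_of_mem
      (Filter.inter_mem (Filter.inter_mem hA hpow) hcon)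
    obtain ⟨s', rfl⟩ := pow_of_e h2p
    obtain ⟨k, hk⟩ := hfe {2 ^ s, 2 ^ s'} (by
      intro b hb
      rcases Finset.mem_insert.1 hb with rfl | hb
      · exact h1A
      · rw [Finset.mem_singleton.1 hb]
        exact h2A)
    obtain ⟨-, -, h3⟩ := hk (2 ^ s) (Finset.mem_insert_self _ _)
    obtain ⟨-, -, h4⟩ := hk (2 ^ s') (Finset.mem_insert_of_mem (Finset.mem_singleton_self _))
    rw [Om_mul, t_mul, Om_pow, t_pow] at h3 h4
    apply h2n
    have : s = s' := by omega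
    rw [this]
    rfl
  obtain ⟨x, hx, rfl⟩ := Ultrafilter.eq_pure_of_finite_mem (Set.finite_singleton _) hmem
  rw [Set.mem_singleton_iff.1 hx]

/-- There is a `≤_fe`-decreasing sequence of ultrafilters whose set of lower bounds has no greatest
element. -/
theorem result : ∃ V : ℕ → Ultrafilter ℕ+, (∀ i j, i ≤ j → fe (V j) (V i)) ∧
    ¬ ∃ G : Ultrafilter ℕ+, (∀ i, fe G (V i)) ∧
      ∀ K : Ultrafilter ℕ+, (∀ i, fe K (V i)) → fe K G := by
  refine ⟨V, chain, ?_⟩
  rintro ⟨G, hG, hmax⟩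
  obtain ⟨s, rfl⟩ := lower_eq G hG
  obtain ⟨A, hA, hfe⟩ := hmax (pure (2 ^ (s + 1))) (fun i => lower_pow (s + 1) i) {2 ^ s} rfl
  have hA' : (2 ^ (s + 1) : ℕ+) ∈ A := hA
  obtain ⟨k, hk⟩ := hfe {2 ^ (s + 1)} (by
    intro b hb
    rw [Finset.mem_singleton.1 hb]
    exact hA')
  have h1 : k * 2 ^ (s + 1) = 2 ^ s := hk _ (Finset.mem_singleton_self _)
  have h2 := congrArg Om h1
  rw [Om_mul, Om_pow, Om_pow] at h2
  omega

end Pool.Agent.Results.MP_26c4ab_lc.NoGreatestLowerBound
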